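import Pool.Agent.TH397.EX2

/-!
# MP_952e1b_co: exponential IP sets in finite colourings

Type II (Q1 and Q2, positive): in every finite partition of `ℕ` some cell is an exponential IP set of
type II.  Proof: look at the powers of two.  Along an idempotent ultrafilter of `(ℕ, +)` the colours
of `2 ^ (2 ^ b * x)` converge to a sequence `ζ`; the closed shift invariant set of all such limits
contains a minimal one, and the Hales-Jewett theorem applied to the uniformly recurrent return times
gives generators `x` such that the limit sequence and the colouring can be controlled on the whole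
set `{2 ^ b * x}` at the same time.

Type I (Q2, negative): for every `r ≥ 3` there is a partition of `ℕ` into `r` cells none of which
is an exponential IP set of type I.
-/

set_option autoImplicit false

namespace Pool.Agent.Results.MP_952e1b_co.ExpIP

/-- The increasing enumeration `x_0 < x_1 < …` of the set `X` (for infinite `X`). -/
noncomputable def enum (X : Set ℕ) (n : ℕ) : ℕ := Nat.nth (fun m => m ∈ X) n

/-- The sets `FE^I_n(X)`. -/
def FEI (X : Set ℕ) : ℕ → Set ℕ
  | 0 => {enum X 0}
  | n + 1 => {z | ∃ y ∈ FEI X n, z = y ^ enum X (n + 1)} ∪ FEI X n ∪ {enum X (n + 1)}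

/-- The sets `FE^II_n(X)`. -/
def FEII (X : Set ℕ) : ℕ → Set ℕ
  | 0 => {enum X 0}
  | n + 1 => {z | ∃ y ∈ FEII X n, z = enum X (n + 1) ^ y} ∪ FEII X n ∪ {enum X (n + 1)}

/-- `C` is an exponential IP set of type I. -/
def IsExpIPI (C : Set ℕ) : Prop := ∃ X : Set ℕ, X.Infinite ∧ (⋃ n, FEI X n) ⊆ C

/-- `C` is an exponential IP set of type II. -/
def IsExpIPII (C : Set ℕ) : Prop := ∃ X : Set ℕ, X.Infinite ∧ (⋃ n, FEII X n) ⊆ C

lemma enum_range (x : ℕ → ℕ) (hx : StrictMono x) : enum (Set.range x) = x := by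
  funext n
  have hinf : (Set.range x).Infinite := Set.infinite_range_of_injective hx.injective
  have h := Nat.nth_comp_of_strictMono (p := fun m => m ∈ Set.range x) (n := n) hx
    (fun k hk => hk) (fun hfi => absurd hfi hinf)
  have h2 : (fun i => x i ∈ Set.range x) = fun _ => True := by
    funext i
    simp
  rw [h2, Nat.nth_true] at h
  exact h.symm

lemma enum_strictMono {X : Set ℕ} (hX : X.Infinite) : StrictMono (enum X) :=
  Nat.nth_strictMono hX

lemma FEI_eq (X : Set ℕ) (n : ℕ) : FEI X n = TH397.EX.feI (enum X) n := by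
  induction n with
  | zero => rfl
  | succ n ih => simp only [FEI, TH397.EX.feI, ih]

lemma FEII_eq (X : Set ℕ) (n : ℕ) : FEII X n = TH397.EX.feII (enum X) n := by
  induction n with
  | zero => rfl
  | succ n ih => simp only [FEII, TH397.EX.feII, ih]

/-- Every finite cover of `ℕ` has a member that is an exponential IP set of type II; for every
`r ≥ 3` there is a partition of `ℕ` into `r` nonempty cells none of which is an exponential IP set
of type I. -/
theorem result :
    (∀ (r : ℕ) (C : Fin r → Set ℕ), (⋃ i, C i) = Set.univ → ∃ i, IsExpIPII (C i)) ∧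
    (∀ r : ℕ, 3 ≤ r → ∃ C : Fin r → Set ℕ, (⋃ i, C i) = Set.univ ∧
      (∀ i j, i ≠ j → Disjoint (C i) (C j)) ∧ (∀ i, (C i).Nonempty) ∧ ∀ i, ¬ IsExpIPI (C i)) := by
  constructor
  · intro r C hC
    have h1 : ∀ n : ℕ, ∃ i, n ∈ C i := fun n => by
      have : n ∈ ⋃ i, C i := by rw [hC]; trivial
      exact Set.mem_iUnion.mp this
    choose col hcol using h1
    obtain ⟨v, x, hx, h⟩ := TH397.EX.typeII col
    refine ⟨v, Set.range x, Set.infinite_range_of_injective hx.injective, ?_⟩
    intro z hz
    obtain ⟨n, hn⟩ := Set.mem_iUnion.mp hz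
    rw [FEII_eq, enum_range x hx] at hn
    rw [← h n z hn]
    exact hcol z
  · intro r hr
    have hr0 : 0 < r := by omega
    refine ⟨fun i => {n | TH397.EX.lev n % r = (i : ℕ)}, ?_, ?_, ?_, ?_⟩
    · ext n
      simp only [Set.mem_iUnion, Set.mem_univ, iff_true]
      exact ⟨⟨TH397.EX.lev n % r, Nat.mod_lt _ hr0⟩, rfl⟩
    · intro i j hij
      rw [Set.disjoint_left]
      intro n h1 h2
      exact hij (Fin.ext (Eq.trans (Eq.symm h1) h2))
    · intro i
      obtain ⟨i, hi⟩ := i
      cases i with
      | zero => exact ⟨0, by show TH397.EX.lev 0 % r = 0; rw [TH397.EX.lev_zero]; exact Nat.zero_mod r⟩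
      | succ k =>
        refine ⟨TH397.EX.tow k, ?_⟩
        show TH397.EX.lev (TH397.EX.tow k) % r = k + 1
        rw [TH397.EX.lev_eq (le_refl _) (TH397.EX.tow_lt k)]
        exact Nat.mod_eq_of_lt hi
    · rintro i ⟨X, hX, hsub⟩
      obtain ⟨a, b, z, hz, w, hw, hne⟩ :=
        TH397.EX.typeI_neg hr (enum X) (enum_strictMono hX)
      have hz' : z ∈ ⋃ n, FEI X n := Set.mem_iUnion.mpr ⟨a, by rw [FEI_eq]; exact hz⟩
      have hw' : w ∈ ⋃ n, FEI X n := Set.mem_iUnion.mpr ⟨b, by rw [FEI_eq]; exact hw⟩
      apply hne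
      have e1 : TH397.EX.lev z % r = (i : ℕ) := hsub hz'
      have e2 : TH397.EX.lev w % r = (i : ℕ) := hsub hw'
      rw [e1, e2]

end Pool.Agent.Results.MP_952e1b_co.ExpIP
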